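import Pool.Agent.NH34.Hdg.Defs
import Pool.Agent.Y121.AHS.Conv

/-!
# Hodge theories: comparison of the definitions
-/

open CategoryTheory AlgebraicGeometry TensorProduct

universe u

namespace Pool.Agent.NH34.Hdg

open Pool.Agent.H914 Pool.Agent.H914.VarClass Pool.Agent.H914.VarClass.Obj
  Pool.Agent.H914.WeilCohomology Pool.Agent.NH34.Lin

variable {k : Type u} [Field k] {𝒱 : VarClass k} {ops : CycleOps 𝒱}

lemma hardLefschetz_iff {W : WeilCohomology.{u, 0} ops} {X : 𝒱.Obj} {D : X.Cycles} :
    HardLefschetz W X D ↔ IsLefschetz (W.gr X) X.dim (W.cl X D) := by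
  unfold HardLefschetz HardLef IsLefschetz
  simp only [LinearMap.pow_mulLeft, LinearMap.mulLeft_apply]

/-- The conversion of Hodge theories. -/
noncomputable def conv (T : HodgeTheory ops) : Pool.Agent.Y121.AHS.HodgeTheory ops where
  W := T.W
  rat := T.rat
  alg := T.alg
  pq X p q := T.pq X p q
  span X i := (T.dec X).span i
  indep X := (T.dec X).indep
  mul X p q r s a b ha hb := (T.dec X).mul p q r s a b ha hb
  map X Y f p q b hb := by
    have h := T.map X Y f p q b hb
    rw [add_zero, add_zero] at h
    exact h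
  push X Y f p q d a hd ha := by
    have h := T.push X Y f p q a ha
    obtain rfl : d = Y.dim - X.dim := by omega
    exact h
  cyc X j z hz := T.cyc X j z hz
  polar X := by
    obtain ⟨D, h1, h2, h3⟩ := T.polar X
    exact ⟨D, h1, hardLefschetz_iff.2 h2, fun j x hj hx h4 h5 => h3 j x hj hx h4 h5⟩

end Pool.Agent.NH34.Hdg
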