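import Pool.Agent.H914R2.Weil
import Pool.Agent.NH34.Lin.HodgeDefs

/-!
# Hodge theories: definitions

In the intended use `k` is an algebraically closed subfield of the complex numbers, the varieties are
the smooth projective ones over `k`, and `W` is the singular cohomology of the complex points with
rational coefficients.
-/

open CategoryTheory AlgebraicGeometry

universe u

namespace Pool.Agent.NH34.Hdg

open Pool.Agent.H914 Pool.Agent.H914.VarClass Pool.Agent.H914.VarClass.Obj
  Pool.Agent.H914.WeilCohomology Pool.Agent.NH34.Lin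

variable {k : Type u} [Field k] {𝒱 : VarClass k}

/-- A Hodge theory: a Weil cohomology theory `W` with rational coefficients and a Hodge decomposition
`pq` of its cohomology with complex coefficients, such that pull-backs preserve the types, the
push-forward for a morphism from `X` to `Y` shifts them by `dim Y - dim X`, the classes of algebraic
cycles are Hodge classes, and every variety has a polarisation: a divisor `D` whose class satisfies
the hard Lefschetz theorem and the Hodge-Riemann relations for the Hodge classes. -/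
structure HodgeTheory (ops : CycleOps 𝒱) where
  /-- the cohomology with rational coefficients -/
  W : WeilCohomology.{u, 0} ops
  rat : ∀ r : W.K, ∃ q : ℚ, (q : W.K) = r
  [alg : Algebra W.K ℂ]
  /-- the spaces `H^(p,q)(X)` -/
  pq : ∀ X : 𝒱.Obj, Bigrading W.K (W.H X)
  dec : ∀ X : 𝒱.Obj, IsDecomposition (W.gr X) (pq X)
  map : ∀ (X Y : 𝒱.Obj) (f : X ⟶ Y), ShiftsTypes (W.map f).toLinearMap (pq Y) (pq X) 0
  push : ∀ (X Y : 𝒱.Obj) (f : X ⟶ Y), ShiftsTypes (W.push f) (pq X) (pq Y) (Y.dim - X.dim)
  cyc : ∀ (X : 𝒱.Obj) (j : ℕ) (z : X.Cycles), X.IsCyc j z →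
    IsHodgeIn (W.gr X) (pq X) j (W.cl X z)
  polar : ∀ X : 𝒱.Obj, ∃ D : X.Cycles, X.IsCyc 1 D ∧
    IsLefschetz (W.gr X) X.dim (W.cl X D) ∧
    IsPositive (W.gr X) (pq X) (W.tr X) X.dim (W.cl X D)

attribute [instance] HodgeTheory.alg

/-- The Hodge classes of degree `2 j` on `X`. -/
def IsHodge {ops : CycleOps 𝒱} (T : HodgeTheory ops) (X : 𝒱.Obj) (j : ℕ) (c : T.W.H X) : Prop :=
  IsHodgeIn (T.W.gr X) (T.pq X) j c

end Pool.Agent.NH34.Hdg
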